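import Pool.Agent.Y626.WG.One
import Pool.Agent.TH678.GC.Final
import Pool.Agent.H620R2.GaugeR.Seq

/-! The hierarchies are strict relative to generic oracles. -/

set_option autoImplicit false

namespace Pool.Agent.Y626.WG

open Pool.Agent.NPC Pool.Agent.H622R2 Pool.Agent.H620R2.Gauge Pool.Agent.TH678.GC
  Pool.Agent.H591R3.PHG Pool.Agent.TH678.RS Pool.Agent.H622R2.Exp

theorem isOpen_of_loc' {P : Set Oracle} (h : ∀ B ∈ P, ∃ ℓ : ℕ, ∀ B' : Oracle,
    (∀ u : List Bool, u.length ≤ ℓ → B u = B' u) → B' ∈ P) : IsOpen P := by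
  rw [isOpen_iff_forall_mem_open]
  intro B hB
  obtain ⟨ℓ, hℓ⟩ := h B hB
  obtain ⟨W, _, hW⟩ := exists_short ℓ
  refine ⟨Set.pi (W : Set (List Bool)) (fun z => {B z}), fun B' hB' => ?_,
    isOpen_set_pi W.finite_toSet (fun _ _ => isOpen_discrete _), fun z _ => rfl⟩
  exact hℓ B' (fun u hu => (hB' u (hW u hu)).symm)

theorem sat_loc (I : Inst) : ∃ ℓ : ℕ, ∀ A A' : Oracle,
    (∀ q : List Bool, q.length ≤ ℓ → A q = A' q) → (I.Sat A ↔ I.Sat A') := by
  set Λ : ℕ := (I.labels.map List.length).sum with hΛ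
  have h1 : ∀ i, (I.labels.getD i []).length ≤ Λ := by
    intro i
    rw [List.getD_eq_getElem?_getD]
    rcases h : I.labels[i]? with _ | a
    · simp
    · rw [Option.getD_some]
      refine List.single_le_sum (fun _ _ => Nat.zero_le _) _ ?_
      exact List.mem_map.2 ⟨a, List.mem_of_getElem? h, rfl⟩
  have h2 : ∀ (l : List ℕ) (v : List ℕ),
      (l.flatMap fun i => I.labels.getD (v.getD i 0) []).length ≤ l.length * Λ := by
    intro l v
    induction l with
    | nil => simp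
    | cons a l ih =>
      rw [List.flatMap_cons, List.length_append, List.length_cons, Nat.succ_mul]
      have := h1 (v.getD a 0)
      omega
  refine ⟨(I.atoms.map fun a => a.2.length * Λ).sum, fun A A' h => ?_⟩
  unfold Inst.Sat
  refine holds_congr (fun v => ?_) _ _ _
  have h3 : I.atoms.map (I.atom A v) = I.atoms.map (I.atom A' v) := by
    refine List.map_congr_left fun a ha => ?_
    obtain ⟨r, l⟩ := a
    cases r with
    | zero =>
      refine h _ ((h2 l v).trans ?_)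
      exact List.single_le_sum (fun _ _ => Nat.zero_le _) _ (List.mem_map.2 ⟨(0, l), ha, rfl⟩)
    | succ r => rfl
  rw [h3]

theorem open_Bad (E : Oracle) (t : ℕ) (M : Alg) (σ : List Bool) (G : ℕ) (x : Inst) :
    IsOpen {A | Bad E t M σ G x A} := by
  obtain ⟨qb, hqb⟩ := M.out_local
  obtain ⟨ℓx, hℓx⟩ := sat_loc x
  refine isOpen_of_loc' fun B hB => ?_
  have hout : ∀ B' : Oracle, (∀ u : List Bool,
      u.length ≤ qb.eval (pairBits σ (bits x)).length → B u = B' u) →
      M.out (join B' E) (pairBits σ (bits x)) = M.out (join B E) (pairBits σ (bits x)) := by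
    intro B' hB'
    obtain ⟨Q, _, hQ2, hQ3⟩ := hqb (join B E) (pairBits σ (bits x))
    exact hQ3 (join B' E) fun q hq => (join_loc hB' q (hQ2 q hq)).symm
  by_cases hI : ∃ I : Inst, M.out (join B E) (pairBits σ (bits x)) = some (bits I)
  · obtain ⟨I, hI⟩ := hI
    obtain ⟨ℓI, hℓI⟩ := sat_loc I
    refine ⟨max (qb.eval (pairBits σ (bits x)).length) (max ℓx ℓI), fun B' hB' => ?_⟩
    rintro ⟨I', h1, h2, h3, h4⟩
    rw [hout B' fun u hu => hB' u (hu.trans (le_max_left _ _)), hI] at h1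
    have h5 : I = I' := bits_injective (Option.some.inj h1)
    subst h5
    refine hB ⟨I, hI, h2, h3, ?_⟩
    have h6 := hℓx (join B E) (join B' E) fun q hq => join_loc hB' q
      (hq.trans ((le_max_left _ _).trans (le_max_right _ _)))
    have h7 := hℓI (join B E) (join B' E) fun q hq => join_loc hB' q
      (hq.trans ((le_max_right _ _).trans (le_max_right _ _)))
    rw [h6, h7]
    exact h4
  · refine ⟨qb.eval (pairBits σ (bits x)).length, fun B' hB' => ?_⟩
    rintro ⟨I', h1, _⟩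
    rw [hout B' hB'] at h1
    exact hI ⟨I', h1⟩

/-- the set of the oracles for which the requirement is satisfied -/
def Gw (E : Oracle) (t : ℕ) (j : Alg × List Bool × ℕ) : Set Oracle :=
  {A | ∃ c ν i, Bad E t j.1 j.2.1 j.2.2 (hard (kk j.1) t c ν i) A}

theorem open_Gw (E : Oracle) (t : ℕ) (j : Alg × List Bool × ℕ) : IsOpen (Gw E t j) := by
  have h1 : Gw E t j = ⋃ c, ⋃ ν, ⋃ i,
      {A | Bad E t j.1 j.2.1 j.2.2 (hard (kk j.1) t c ν i) A} := by
    ext A
    simp [Gw]
  rw [h1]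
  exact isOpen_iUnion fun c => isOpen_iUnion fun ν => isOpen_iUnion fun i =>
    open_Bad E t _ _ _ _

theorem dense_Gw (E : Oracle) (t : ℕ) (j : Alg × List Bool × ℕ) : Dense (Gw E t j) := by
  rw [dense_iff_inter_open]
  rintro U hU ⟨B₀, hB₀⟩
  obtain ⟨I, u, hu1, hu2⟩ := isOpen_pi_iff.1 hU B₀ hB₀
  obtain ⟨A, hA1, hA2⟩ := one E t j.1 j.2.1 j.2.2 B₀ (I.sup List.length)
  refine ⟨A, hu2 fun z hz => ?_, hA2⟩
  rw [hA1 z (Finset.le_sup (f := List.length) hz)]
  exact (hu1 z hz).2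

theorem generic (E : Oracle) : ∀ᶠ A in residual Oracle, ∀ (t : ℕ) (j : Alg × List Bool × ℕ),
    A ∈ Gw E t j := by
  have hcn := CC.poly_countable
  have hc2 : Countable Alg := Alg.countable
  exact eventually_countable_forall.2 fun t => eventually_countable_forall.2 fun j =>
    residual_of_dense_open (open_Gw E t j) (dense_Gw E t j)

theorem isW_mono {t : ℕ} {I : Inst} (h : I.IsW t) : I.IsW (t + 1) :=
  ⟨⟨h.1.1, h.1.2.trans (Nat.le_succ t)⟩, h.2⟩

theorem inW_mono {t : ℕ} {A : Oracle} {α : Type} [TEnc α] {κ : α → ℕ} {P : α → Prop}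
    (h : InW t A κ P) : InW (t + 1) A κ P := by
  obtain ⟨π, g, R, M, hπ, hg, h⟩ := h
  exact ⟨π, g, R, M, hπ, hg, fun a => ⟨(h a).1, isW_mono (h a).2.1, (h a).2.2⟩⟩

theorem inW_inA {t : ℕ} {A : Oracle} {α : Type} [TEnc α] {κ : α → ℕ} {P : α → Prop}
    (h : InW t A κ P) : InA t A κ P := by
  obtain ⟨π, g, R, M, _, _, h⟩ := h
  exact ⟨π, g, R, M, fun a => ⟨(h a).1, (h a).2.1.1, (h a).2.2⟩⟩

/-- the model-checking problem is in the class -/
theorem mc_inW (t : ℕ) (A : Oracle) : InW t A (fun I : WInst t => I.1.param)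
    (fun I => I.1.Sat A) := by
  obtain ⟨M, hM⟩ := IsFP.of_poly (A := A) (F := fun y => (unpair y).2) (Poly.snd poly_unpair)
  refine ⟨fun _ => [], fun n => n, fun I => I.1, M, Computable.const _, Computable.id,
    fun I => ⟨?_, I.2, le_refl _, Iff.rfl⟩⟩
  rw [hM]
  show some (unpair (pairBits [] (bits I))).2 = _
  rw [unpair_pairBits]
  rfl

theorem main (E : Oracle) : ∀ᶠ A in residual Oracle, ∀ t : ℕ,
    (∀ (α : Type) [TEnc α] (κ : α → ℕ) (P : α → Prop), InW t (join A E) κ P →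
      InW (t + 1) (join A E) κ P ∧ InA t (join A E) κ P) ∧
    InW (t + 1) (join A E) (fun I : WInst (t + 1) => I.1.param)
      (fun I => I.1.Sat (join A E)) ∧
    ¬ InA t (join A E) (fun I : WInst (t + 1) => I.1.param)
      (fun I => I.1.Sat (join A E)) := by
  filter_upwards [generic E] with A hA t
  refine ⟨fun α _ κ P h => ⟨inW_mono h, inW_inA h⟩, mc_inW _ _, ?_⟩
  rintro ⟨π, g, R, M, h⟩
  obtain ⟨c, ν, i, hbad⟩ := hA t (M, π (2 * (kk M + t) + 1), g (2 * (kk M + t) + 1))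
  have h1 := h ⟨hard (kk M) t c ν i, hard_isW _ _ _ _ _⟩
  have e : (hard (kk M) t c ν i).param = 2 * (kk M + t) + 1 := hard_param _ _ _ _ _
  refine hbad ⟨R ⟨hard (kk M) t c ν i, hard_isW _ _ _ _ _⟩, ?_, h1.2.1, ?_, h1.2.2.2⟩
  · have h2 := h1.1
    dsimp only at h2
    rw [e] at h2
    exact h2
  · have h2 := h1.2.2.1
    dsimp only at h2
    rw [e] at h2
    exact h2

end Pool.Agent.Y626.WG
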