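import Pool.Agent.TH678.GC.Defs

/-!
# The classes `W[t]` and `A[t]` relative to an oracle

`W[t]` is the class of the parameterized problems with an fpt-reduction to the model-checking
problem for `Σ_{t,1}`-sentences on structures with binary relations, and `A[t]` is defined in the
same way with `Σ_t`-sentences. Relative to an oracle, the fpt-reductions may ask the oracle, the
elements of the structures are labelled with bit strings, and the sentences may contain atoms which
say that the concatenation of the labels of some variables is in the oracle.
-/

set_option autoImplicit false

namespace Pool.Agent.Y626.WG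

open Pool.Agent.NPC Pool.Agent.H620R2.Gauge Pool.Agent.TH678.GC

/-- A finite structure together with a sentence in prenex normal form. The elements of the structure
are the numbers less than the length of `labels`, and `labels` contains their labels. The lists
`rels` are binary relations between elements. The sentence starts with blocks of quantifiers, in
turn existential and universal, whose lengths are given by `blocks`; its variables are numbered in
this order. Its matrix is given by a list of atoms and by the list `acc` of the accepted vectors of
truth values of the atoms. -/
structure Inst : Type where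
  /-- the labels of the elements -/
  labels : List (List Bool)
  /-- the binary relations -/
  rels : List (List (ℕ × ℕ))
  /-- the lengths of the blocks of quantifiers -/
  blocks : List ℕ
  /-- the atoms -/
  atoms : List (ℕ × List ℕ)
  /-- the accepted vectors of truth values of the atoms -/
  acc : List (List Bool)

instance : TEnc Inst :=
  ⟨fun I => toT (I.labels, I.rels, I.blocks, I.atoms, I.acc), fun I J h => by
    have h1 := TEnc.inj h
    cases I; cases J
    simp only [Prod.mk.injEq] at h1
    simp only [Inst.mk.injEq]
    exact h1⟩

/-- The truth value of an atom relative to the oracle `A` if the variable number `i` has the value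
`v i`. The atom `(0, l)` says that the concatenation of the labels of the variables in the list `l`
is in the oracle; the atom `(r + 1, [i, j])` says that the relation number `r` holds for the
variables number `i` and `j`. -/
def Inst.atom (A : Oracle) (I : Inst) (v : List ℕ) : ℕ × List ℕ → Bool
  | (0, l) => A (l.flatMap fun i => I.labels.getD (v.getD i 0) [])
  | (r + 1, l) => decide ((v.getD (l.getD 0 0) 0, v.getD (l.getD 1 0) 0) ∈ I.rels.getD r [])

/-- Alternating blocks of quantifiers over the numbers less than `N` in front of `P`, the first
block existential if the bit is `true` and universal if it is `false`; the list `v` contains the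
values of the variables bound so far. -/
def Holds (N : ℕ) (P : List ℕ → Prop) : Bool → List ℕ → List ℕ → Prop
  | _, [], v => P v
  | true, s :: bs, v => ∃ w : List ℕ, w.length = s ∧ (∀ a ∈ w, a < N) ∧
      Holds N P false bs (v ++ w)
  | false, s :: bs, v => ∀ w : List ℕ, w.length = s → (∀ a ∈ w, a < N) →
      Holds N P true bs (v ++ w)

/-- The sentence is true in the structure, relative to the oracle `A`. -/
def Inst.Sat (A : Oracle) (I : Inst) : Prop :=
  Holds I.labels.length (fun v => I.atoms.map (I.atom A v) ∈ I.acc) true I.blocks []

/-- The parameter: the number of the variables plus the length of the atoms. -/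
def Inst.param (I : Inst) : ℕ := I.blocks.sum + (I.atoms.map fun p => p.2.length + 1).sum

/-- The sentence is a `Σ_t`-sentence: it has at most `t` blocks of quantifiers (and the structure
is not empty). -/
def Inst.IsA (t : ℕ) (I : Inst) : Prop := I.labels ≠ [] ∧ I.blocks.length ≤ t

/-- The sentence is a `Σ_{t,1}`-sentence: it has at most `t` blocks of quantifiers, all of which
except the first one contain at most one quantifier (and the structure is not empty). -/
def Inst.IsW (t : ℕ) (I : Inst) : Prop := I.IsA t ∧ ∀ s ∈ I.blocks.tail, s ≤ 1

/-- The instances of the model-checking problem for `Σ_{t,1}`-sentences. -/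
abbrev WInst (t : ℕ) : Type := {I : Inst // I.IsW t}

instance (t : ℕ) : TEnc (WInst t) :=
  ⟨fun I => toT I.1, fun _ _ h => Subtype.ext (TEnc.inj h)⟩

/-- The parameterized problem `P` about the elements `a` of the encoded type `α`, with the
parameter `κ a`, is in `W[t]` relative to the oracle `A`: it has an fpt-reduction relative to `A`
to the model-checking problem for `Σ_{t,1}`-sentences. The reduction `R` is computed in polynomial
time relative to `A` after a precomputation `π` on the parameter, and the parameter of `R a` is
bounded by a computable function `g` of the parameter of `a`. -/
def InW (t : ℕ) (A : Oracle) {α : Type} [TEnc α] (κ : α → ℕ) (P : α → Prop) : Prop :=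
  ∃ (π : ℕ → List Bool) (g : ℕ → ℕ) (R : α → Inst) (M : Alg), Computable π ∧ Computable g ∧
    ∀ a, M.out A (pairBits (π (κ a)) (bits a)) = some (bits (R a)) ∧ (R a).IsW t ∧
      (R a).param ≤ g (κ a) ∧ (P a ↔ (R a).Sat A)

/-- The parameterized problem `P` is in nonuniform `A[t]` relative to the oracle `A`: it has an
fpt-reduction relative to `A` to the model-checking problem for `Σ_t`-sentences, where the
precomputation `π` and the bound `g` are arbitrary functions. (If they are computable, then the
problem is in `A[t]` relative to `A`.) -/
def InA (t : ℕ) (A : Oracle) {α : Type} [TEnc α] (κ : α → ℕ) (P : α → Prop) : Prop :=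
  ∃ (π : ℕ → List Bool) (g : ℕ → ℕ) (R : α → Inst) (M : Alg),
    ∀ a, M.out A (pairBits (π (κ a)) (bits a)) = some (bits (R a)) ∧ (R a).IsA t ∧
      (R a).param ≤ g (κ a) ∧ (P a ↔ (R a).Sat A)

end Pool.Agent.Y626.WG
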