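import Pool.Agent.H591R3.PHG.Main

/-! The average-case hierarchy: some assignment of the leaves. -/

set_option autoImplicit false
set_option maxHeartbeats 400000

namespace Pool.Agent.Y626.WG

open Finset H568R2 Pool.Agent.H676 Pool.Agent.H620R2.Gauge Pool.Agent.NPC Pool.Agent.H591R3.PHG

theorem exists_le_of_Ex {I V : Type} [Fintype I] [DecidableEq I] [Fintype V] {law : V → ℝ}
    (h0 : ∀ v, 0 ≤ law v) (h1 : ∑ v, law v = 1) {W : (I → V) → ℝ} {c : ℝ}
    (h : Ex law W ≤ c) : ∃ s, W s ≤ c := by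
  by_contra hcon
  push Not at hcon
  have h2 : Ex law (fun _ : I → V => c) = c := Ex_const h1 c
  have h3 : Ex law (fun _ : I → V => c) < Ex law W := by
    unfold Ex
    have hsum : ∑ ω : I → V, ∏ i, law (ω i) = 1 := by
      have := Ex_const (I := I) h1 1
      unfold Ex at this
      simpa using this
    have hnn : ∀ ω : I → V, 0 ≤ ∏ i, law (ω i) := fun ω => Finset.prod_nonneg fun i _ => h0 _
    obtain ⟨ω, hω⟩ : ∃ ω : I → V, 0 < ∏ i, law (ω i) := by
      by_contra hc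
      push Not at hc
      have : ∑ ω : I → V, ∏ i, law (ω i) ≤ 0 := Finset.sum_nonpos fun ω _ => hc ω
      linarith
    refine Finset.sum_lt_sum (fun ω _ => mul_le_mul_of_nonneg_left (hcon ω).le (hnn ω))
      ⟨ω, Finset.mem_univ _, mul_lt_mul_of_pos_left (hcon ω) hω⟩
  linarith

theorem Ms_eq_one {X : Type} [Fintype X] [DecidableEq X] (t : ℝ) (cs : List ℕ)
    (s : Idx X cs → Option Bool) (g : X → (Idx X cs → Bool) → Bool)
    (h : ∀ z j, g j z ≠ Tr cs (val s z) j) : Ms t cs s g = 1 := by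
  unfold Ms
  have h8 : (fun z : Idx X cs → Bool =>
      (if ∀ j, g j z ≠ Tr cs (val s z) j then (1 : ℝ) else 0)) = fun _ => 1 :=
    funext fun z => if_pos fun j => h z j
  rw [h8]
  exact Ex_const (ber_sum_m _) 1

theorem core (t : ℕ) {n u : ℕ} (hn : 5 ≤ n) (hu : 8 * u ≤ n) :
    ∃ as : List ℕ, as.length = t + 1 ∧ (∀ a ∈ as, a ≤ 64 * n) ∧
      ∃ s : Idx (Fin (2 ^ (u + 11))) (pw as) → Option Bool,
        ∀ (m ℓ : ℕ) (F : List Bool → (Idx (Fin (2 ^ (u + 11))) (pw as) → Bool) → Bool),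
          (∀ y : List Bool, y.length ≤ ℓ + t * (2 * m + 1) → DTr (2 ^ (2 * u)) (F y)) →
          ∀ y : Fin (2 ^ (u + 11)) → List Bool, (∀ j, (y j).length ≤ ℓ) →
            (t : ℝ) * (2 ^ (ℓ + t * (2 * m + 1) + 2) * (1 / 2) ^ (2 ^ (2 * u) + 1)) +
              3 * (1 / 2) ^ (2 ^ u) < 1 →
            ∃ (z : Idx (Fin (2 ^ (u + 11))) (pw as) → Bool) (j : Fin (2 ^ (u + 11))),
              QF m F t true (y j) z = Tr (pw as) (val s z) j := by
  classical
  have hinv := inv_start hn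
  obtain ⟨as, h1, h2, h3⟩ := exists_sizes hn t _ hinv
  refine ⟨as, h1, h2, ?_⟩
  have h4 := h3 (Fin (2 ^ (u + 11))) (2 ^ (3 * u + 11)) (2 ^ (u + 9)) (by
      have e : (16 : ℕ) = 2 ^ 4 := by norm_num
      rw [e, ← pow_add]
      exact Nat.pow_le_pow_right (by norm_num) (by omega)) (by
      rw [Fintype.card_fin]
      have e : (4 : ℕ) = 2 ^ 2 := by norm_num
      rw [e, ← pow_add]
      exact Nat.pow_le_pow_right (by norm_num) (by omega))
  rw [Fintype.card_fin] at h4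
  obtain ⟨s, hs⟩ := exists_le_of_Ex hinv.nonneg hinv.sum h4
  refine ⟨s, fun m ℓ F hF y hy hlt => ?_⟩
  by_contra hcon
  push Not at hcon
  have hD : 2 ^ (2 * u) * Fintype.card (Fin (2 ^ (u + 11))) ≤ 2 ^ (3 * u + 11) := by
    rw [Fintype.card_fin, ← pow_add]
    exact Nat.pow_le_pow_right (by norm_num) (by omega)
  have hlen : (pw as).length = t + 1 := by
    rw [pw, List.length_map]; exact h1
  have h5 := main_ind (X := Fin (2 ^ (u + 11))) (n := n) (u := u) (D := 2 ^ (3 * u + 11))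
    (g := 2 ^ (u + 9)) hn hu hD t (pw as) hlen s m ℓ F hF y hy true
  have h6 := final_numbers hn hu
  have h7 : Ms (1 / 2 ^ (4 * n)) (pw as) s (fun j => QF m F t true (y j)) = 1 :=
    Ms_eq_one _ _ _ _ hcon
  rw [h7] at h5
  linarith

end Pool.Agent.Y626.WG
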