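import Pool.Agent.Y626.WG.Hard
import Pool.Agent.Y626.WG.Core

/-! The bits of the leaves. -/

set_option autoImplicit false

namespace Pool.Agent.Y626.WG

open Pool.Agent.NPC Pool.Agent.H620R2.Gauge Pool.Agent.TH678.GC Pool.Agent.H591R3.PHG

/-- the addresses of the roots -/
def xsr {K : ℕ} (c : ℕ) (j : Fin K) : List Bool := bitsOf c j.val

open Classical in
/-- the bits of the leaves as a function of their addresses -/
noncomputable def fo {K : ℕ} (c : ℕ) (as : List ℕ) (ω : Idx (Fin K) (pw as) → Bool) :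
    List Bool → Bool := fun s =>
  if h : ∃ g, addr (xsr (K := K) c) as g = s then ω h.choose else false

theorem addr_injective {K c : ℕ} (hK : K ≤ 2 ^ c) (as : List ℕ) :
    Function.Injective (fun g : Idx (Fin K) (pw as) => addr (xsr (K := K) c) as g) := by
  refine LangTrAux.addr_inj _ (fun j j' h => ?_) c (fun j => length_bitsOf _ _) as
  exact Fin.ext (bitsOf_inj (lt_of_lt_of_le j.2 hK) (lt_of_lt_of_le j'.2 hK) h)

theorem fo_addr {K c : ℕ} (hK : K ≤ 2 ^ c) (as : List ℕ) (ω : Idx (Fin K) (pw as) → Bool)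
    (g : Idx (Fin K) (pw as)) : fo c as ω (addr (xsr (K := K) c) as g) = ω g := by
  unfold fo
  have h : ∃ g', addr (xsr (K := K) c) as g' = addr (xsr (K := K) c) as g := ⟨g, rfl⟩
  rw [dif_pos h]
  exact congrArg ω (addr_injective hK as h.choose_spec)

theorem Tr_fo {K c : ℕ} (hK : K ≤ 2 ^ c) (as : List ℕ) (ω : Idx (Fin K) (pw as) → Bool)
    (j : Fin K) : Tr (pw as) ω j = as.reverse.foldr up (fo c as ω) (bitsOf c j.val) := by
  have h1 := LangTrAux.Tr_addr (xsr (K := K) c) as (fo c as ω) j
  have h2 : (fun g : Idx (Fin K) (pw as) => fo c as ω (addr (xsr (K := K) c) as g)) = ω :=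
    funext fun g => fo_addr hK as ω g
  rw [h2] at h1
  rw [h1, List.foldr_reverse]
  rfl

theorem sing_val {I : Type} (s : I → Option Bool) (i : I) :
    Sing (fun z : I → Bool => val s z i) := by
  unfold val
  rcases h : s i with _ | b
  · exact Or.inr ⟨i, id, fun z => by simp⟩
  · exact Or.inl ⟨b, fun z => by simp⟩

theorem Sing.comp {J : Type} {f : (J → Bool) → Bool} (h : Sing f) (u : Bool → Bool) :
    Sing (fun z => u (f z)) := by
  rcases h with ⟨c, hc⟩ | ⟨j, w, hw⟩
  · exact Or.inl ⟨u c, fun z => congrArg u (hc z)⟩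
  · exact Or.inr ⟨j, fun b => u (w b), fun z => congrArg u (hw z)⟩

theorem sing_fo {K c : ℕ} (as : List ℕ) (s : Idx (Fin K) (pw as) → Option Bool)
    (p : List Bool) : Sing (fun z => fo c as (val s z) p) := by
  unfold fo
  by_cases h : ∃ g, addr (xsr (K := K) c) as g = p
  · simp only [dif_pos h]
    exact sing_val s _
  · simp only [dif_neg h]
    exact Or.inl ⟨false, fun _ => rfl⟩

theorem sing_orc {K c : ℕ} (as : List ℕ) (s : Idx (Fin K) (pw as) → Option Bool)
    (B₀ E : Oracle) (L t ν τ : ℕ) (S : ℕ → List ℕ) (rest : List ℕ) (q : List Bool) :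
    Sing (fun z => join (orc' B₀ L t c ν τ S rest (fo c as (val s z))) E q) := by
  rcases q with _ | ⟨b, u⟩
  · exact Or.inl ⟨false, fun _ => rfl⟩
  cases b with
  | true => exact Or.inl ⟨E u, fun _ => rfl⟩
  | false =>
    show Sing (fun z => orc' B₀ L t c ν τ S rest (fo c as (val s z)) u)
    unfold orc'
    by_cases h1 : u.length ≤ L
    · simp only [if_pos h1]
      exact Or.inl ⟨B₀ u, fun _ => rfl⟩
    · simp only [if_neg h1]
      by_cases h2 : ∃ p, IsLeaf t c ν τ S (false :: u) p
      · simp only [dif_pos h2]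
        exact (sing_fo as s _).comp (fun b => b == !(fl t false))
      · simp only [dif_neg h2]
        exact Or.inl ⟨false, fun _ => rfl⟩

/-- the truth values of the atoms, as decision trees -/
theorem sing_atom {K c : ℕ} (as : List ℕ) (s : Idx (Fin K) (pw as) → Option Bool)
    (B₀ E : Oracle) (L t ν τ : ℕ) (S : ℕ → List ℕ) (rest : List ℕ) (I : Inst) (v : List ℕ)
    (a : ℕ × List ℕ) :
    Sing (fun z => I.atom (join (orc' B₀ L t c ν τ S rest (fo c as (val s z))) E) v a) := by
  obtain ⟨r, l⟩ := a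
  rcases r with _ | r
  · exact sing_orc as s B₀ E L t ν τ S rest _
  · exact Or.inl ⟨_, fun _ => rfl⟩

open Classical in
theorem DTr_matrix {K c : ℕ} (as : List ℕ) (s : Idx (Fin K) (pw as) → Option Bool)
    (B₀ E : Oracle) (L t ν τ : ℕ) (S : ℕ → List ℕ) (rest : List ℕ) (I : Inst) (v : List ℕ) :
    Pool.Agent.H676.DTr I.atoms.length (fun z : Idx (Fin K) (pw as) → Bool =>
      decide (I.atoms.map
        (I.atom (join (orc' B₀ L t c ν τ S rest (fo c as (val s z))) E) v) ∈ I.acc)) := by
  have h1 := DTr_list (I.atoms.map fun a (z : Idx (Fin K) (pw as) → Bool) =>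
    I.atom (join (orc' B₀ L t c ν τ S rest (fo c as (val s z))) E) v a) (by
    intro f hf
    obtain ⟨a, _, rfl⟩ := List.mem_map.1 hf
    exact sing_atom as s B₀ E L t ν τ S rest I v a) (fun x => decide (x ∈ I.acc))
  rw [List.length_map] at h1
  refine (congrArg (Pool.Agent.H676.DTr I.atoms.length) (funext fun z => ?_)).mp h1
  rw [List.map_map]
  rfl

/-- truth of a sentence with few atoms, in terms of quantified decision trees -/
theorem sat_qf {I : Inst} {A : Oracle} {J : Type} {m t : ℕ} (hI : I.IsA t)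
    (d : ℕ → List Bool → List ℕ)
    (hd : ∀ s ∈ I.blocks, (∀ w, Tup I.labels.length s (d s w)) ∧
      ∀ a, Tup I.labels.length s a → ∃ w : List Bool, w.length ≤ m ∧ d s w = a)
    (Leaf : List (List Bool) → List Bool → (J → Bool) → Bool) (y0 : List Bool) (z : J → Bool)
    (hL : ∀ ws : List (List Bool), (Leaf ws y0 z = true ↔
      I.atoms.map (I.atom A (dcd d I.blocks ws)) ∈ I.acc)) :
    (QF m (fun y => Leaf (ass t y).1 (ass t y).2) t true y0 z = true ↔ I.Sat A) := by
  have h := qf_holds (m := m) (N := I.labels.length) (t := t)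
    (P := fun v => I.atoms.map (I.atom A v) ∈ I.acc) (d := d) Leaf y0 z t I.blocks true [] []
    hI.2 (by simp) hd (by
      intro ws' _
      rw [List.nil_append, List.nil_append]
      exact hL ws')
  exact h

end Pool.Agent.Y626.WG
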