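import Pool.Agent.Y626.WG.Rep

/-! The hard instances. -/

set_option autoImplicit false

namespace Pool.Agent.Y626.WG

open Pool.Agent.NPC Pool.Agent.H620R2.Gauge Pool.Agent.TH678.GC Pool.Agent.H591R3.PHG

/-- the label of the element `i` in the instance number `j` -/
def lab (c ν j i : ℕ) : List Bool := false :: (bitsOf c j ++ bitsOf ν i)

theorem length_lab (c ν j i : ℕ) : (lab c ν j i).length = 1 + c + ν := by
  unfold lab
  rw [List.length_cons, List.length_append, length_bitsOf, length_bitsOf]
  ring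

/-- the hard instance number `j` -/
def hard (k t c ν j : ℕ) : Inst where
  labels := (List.range (2 ^ ν)).map (lab c ν j)
  rels := []
  blocks := k :: List.replicate t 1
  atoms := [(0, List.range (k + t))]
  acc := [[true]]

theorem hard_isW (k t c ν j : ℕ) : (hard k t c ν j).IsW (t + 1) := by
  refine ⟨⟨?_, ?_⟩, ?_⟩
  · show (List.range (2 ^ ν)).map (lab c ν j) ≠ []
    intro h
    have h1 := congrArg List.length h
    rw [List.length_map, List.length_range, List.length_nil] at h1
    have : 0 < 2 ^ ν := by positivity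
    omega
  · show (k :: List.replicate t 1).length ≤ t + 1
    rw [List.length_cons, List.length_replicate]
  · intro s hs
    exact (List.eq_of_mem_replicate hs).le

theorem hard_param (k t c ν j : ℕ) : (hard k t c ν j).param = 2 * (k + t) + 1 := by
  show (k :: List.replicate t 1).sum +
    (([(0, List.range (k + t))] : List (ℕ × List ℕ)).map fun p => p.2.length + 1).sum = _
  rw [List.sum_cons, List.sum_replicate]
  simp
  ring

theorem flat_getD (v : List ℕ) (F : ℕ → List Bool) :
    (List.range v.length).flatMap (fun i => F (v.getD i 0)) = v.flatMap F := by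
  have h1 : (List.range v.length).map (fun i => v.getD i 0) = v := by
    apply List.ext_getElem
    · simp
    · intro i h1 h2
      rw [List.getElem_map, List.getElem_range, List.getD_eq_getElem _ _ h2]
  calc (List.range v.length).flatMap (fun i => F (v.getD i 0))
      = ((List.range v.length).map (fun i => v.getD i 0)).flatMap F := by
        rw [List.flatMap_map]
    _ = v.flatMap F := by rw [h1]

theorem flatMap_congr' {v : List ℕ} {F F' : ℕ → List Bool} (h : ∀ a ∈ v, F a = F' a) :
    v.flatMap F = v.flatMap F' := by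
  induction v with
  | nil => rfl
  | cons a v ih =>
    rw [List.flatMap_cons, List.flatMap_cons, h a (List.mem_cons_self ..),
      ih fun b hb => h b (List.mem_cons_of_mem _ hb)]

theorem query {k t c ν j : ℕ} {v : List ℕ} (hv : Tup (2 ^ ν) (k + t) v) :
    (List.range (k + t)).flatMap
      (fun i => (hard k t c ν j).labels.getD (v.getD i 0) []) = v.flatMap (lab c ν j) := by
  have h0 : k + t = v.length := hv.1.symm
  rw [h0, flat_getD v (fun a => (hard k t c ν j).labels.getD a [])]
  refine flatMap_congr' fun a ha => ?_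
  have ha' : a < 2 ^ ν := hv.2 a ha
  show ((List.range (2 ^ ν)).map (lab c ν j)).getD a [] = _
  rw [List.getD_eq_getElem _ _ (by simpa using ha')]
  simp

theorem length_flat (c ν j : ℕ) (v : List ℕ) :
    (v.flatMap (lab c ν j)).length = v.length * (1 + c + ν) := by
  induction v with
  | nil => simp
  | cons a v ih =>
    rw [List.flatMap_cons, List.length_append, length_lab, ih, List.length_cons]
    ring

theorem flat_inj {c ν : ℕ} : ∀ {r : ℕ} {v v' : List ℕ} {j j' : ℕ}, 1 ≤ r → Tup (2 ^ ν) r v →
    Tup (2 ^ ν) r v' → j < 2 ^ c → j' < 2 ^ c →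
    v.flatMap (lab c ν j) = v'.flatMap (lab c ν j') → j = j' ∧ v = v' := by
  intro r
  induction r with
  | zero => intro v v' j j' h; omega
  | succ r ih =>
    intro v v' j j' _ hv hv' hj hj' h
    rcases v with _ | ⟨a, v⟩
    · exact absurd hv.1 (by simp)
    rcases v' with _ | ⟨a', v'⟩
    · exact absurd hv'.1 (by simp)
    rw [List.flatMap_cons, List.flatMap_cons] at h
    obtain ⟨h1, h2⟩ := List.append_inj h (by rw [length_lab, length_lab])
    have h3 : bitsOf c j ++ bitsOf ν a = bitsOf c j' ++ bitsOf ν a' := by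
      unfold lab at h1
      exact (List.cons.inj h1).2
    obtain ⟨h4, h5⟩ := List.append_inj h3 (by rw [length_bitsOf, length_bitsOf])
    have hj0 : j = j' := bitsOf_inj hj hj' h4
    have ha : a = a' := bitsOf_inj (hv.2 a (List.mem_cons_self ..))
      (hv'.2 a' (List.mem_cons_self ..)) h5
    subst hj0
    subst ha
    refine ⟨rfl, ?_⟩
    rcases Nat.eq_zero_or_pos r with h0 | h0
    · subst h0
      have e1 : v = [] := List.eq_nil_of_length_eq_zero (by simpa using hv.1)
      have e2 : v' = [] := List.eq_nil_of_length_eq_zero (by simpa using hv'.1)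
      rw [e1, e2]
    · have h6 := ih h0 (v := v) (v' := v') (j := j) (j' := j)
        ⟨by simpa using hv.1, fun x hx => hv.2 x (List.mem_cons_of_mem _ hx)⟩
        ⟨by simpa using hv'.1, fun x hx => hv'.2 x (List.mem_cons_of_mem _ hx)⟩ hj hj h2
      rw [h6.2]

/-- the oracle without leaves -/
def base (B₀ : Oracle) (L : ℕ) : Oracle := fun u => if u.length ≤ L then B₀ u else false

/-- the string is the question for a leaf -/
def IsLeaf (t c ν τ : ℕ) (S : ℕ → List ℕ) (q : List Bool) (p : ℕ × ℕ × List ℕ) : Prop :=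
  p.1 < 2 ^ c ∧ p.2.1 < 2 ^ τ ∧ Tup (2 ^ ν) t p.2.2 ∧
    q = (S p.2.1 ++ p.2.2).flatMap (lab c ν p.1)

open Classical in
/-- the oracle with the values `f` at the leaves -/
noncomputable def orc' (B₀ : Oracle) (L t c ν τ : ℕ) (S : ℕ → List ℕ) (rest : List ℕ)
    (f : List Bool → Bool) : Oracle := fun u =>
  if u.length ≤ L then B₀ u
  else if h : ∃ p, IsLeaf t c ν τ S (false :: u) p then
    f (bitsOf c h.choose.1 ++ bitsOf τ h.choose.2.1 ++ path rest h.choose.2.2) == !(fl t false)
  else false

/-- the addresses of the subtrees -/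
structure Sel (k ν τ : ℕ) (S : ℕ → List ℕ) : Prop where
  tup : ∀ i < 2 ^ τ, Tup (2 ^ ν) k (S i)
  inj : ∀ i < 2 ^ τ, ∀ i' < 2 ^ τ, S i = S i' → i = i'

theorem Tup.append {N k t : ℕ} {v w : List ℕ} (h : Tup N k v) (h' : Tup N t w) :
    Tup N (k + t) (v ++ w) := by
  refine ⟨by rw [List.length_append, h.1, h'.1], fun x hx => ?_⟩
  rcases List.mem_append.1 hx with hx | hx
  · exact h.2 x hx
  · exact h'.2 x hx

theorem isLeaf_unique {k t c ν τ : ℕ} {S : ℕ → List ℕ} (hS : Sel k ν τ S) (hk : 1 ≤ k)
    {q : List Bool} {p p' : ℕ × ℕ × List ℕ} (h : IsLeaf t c ν τ S q p)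
    (h' : IsLeaf t c ν τ S q p') : p = p' := by
  obtain ⟨h1, h2, h3, h4⟩ := h
  obtain ⟨h1', h2', h3', h4'⟩ := h'
  obtain ⟨h5, h6⟩ := flat_inj (c := c) (ν := ν) (r := k + t) (by omega)
    ((hS.tup _ h2).append h3) ((hS.tup _ h2').append h3') h1 h1' (h4.symm.trans h4')
  obtain ⟨h7, h8⟩ := List.append_inj h6 (by rw [(hS.tup _ h2).1, (hS.tup _ h2').1])
  exact Prod.ext h5 (Prod.ext (hS.inj _ h2 _ h2' h7) h8)

theorem join_base {B₀ E : Oracle} {L t c ν τ : ℕ} {S : ℕ → List ℕ} {rest : List ℕ}
    {f : List Bool → Bool} {q : List Bool} (h : ¬ ∃ p, IsLeaf t c ν τ S q p) :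
    join (orc' B₀ L t c ν τ S rest f) E q = join (base B₀ L) E q := by
  rcases q with _ | ⟨b, u⟩
  · rfl
  cases b with
  | true => rfl
  | false =>
    show orc' B₀ L t c ν τ S rest f u = base B₀ L u
    unfold orc' base
    split_ifs with h1
    · rfl
    · rfl

theorem join_leaf {B₀ E : Oracle} {L k t c ν τ : ℕ} {S : ℕ → List ℕ} (hS : Sel k ν τ S)
    (hk : 1 ≤ k) (hL : L < ν) {rest : List ℕ} {f : List Bool → Bool} {q : List Bool}
    {p : ℕ × ℕ × List ℕ} (h : IsLeaf t c ν τ S q p) :
    join (orc' B₀ L t c ν τ S rest f) E q =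
      (f (bitsOf c p.1 ++ bitsOf τ p.2.1 ++ path rest p.2.2) == !(fl t false)) := by
  obtain ⟨h1, h2, h3, h4⟩ := id h
  have hlen : q.length = (k + t) * (1 + c + ν) := by
    rw [h4, length_flat, ((hS.tup _ h2).append h3).1]
  rcases q with _ | ⟨b, u⟩
  · exfalso
    rw [List.length_nil] at hlen
    have : 0 < (k + t) * (1 + c + ν) := by positivity
    omega
  have hb : b = false := by
    have h5 : (S p.2.1 ++ p.2.2).flatMap (lab c ν p.1) ≠ [] := by rw [← h4]; simp
    rcases hw : S p.2.1 ++ p.2.2 with _ | ⟨a, w⟩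
    · rw [hw] at h5; simp at h5
    · rw [hw, List.flatMap_cons] at h4
      unfold lab at h4
      rw [List.cons_append] at h4
      exact (List.cons.inj h4).1
  subst hb
  show orc' B₀ L t c ν τ S rest f u = _
  unfold orc'
  have hu : ¬ u.length ≤ L := by
    rw [List.length_cons] at hlen
    have h6 : 1 + c + ν ≤ (k + t) * (1 + c + ν) := Nat.le_mul_of_pos_left _ (by omega)
    omega
  rw [if_neg hu]
  have hex : ∃ p, IsLeaf t c ν τ S (false :: u) p := ⟨p, h⟩
  rw [dif_pos hex]
  have hp : hex.choose = p := isLeaf_unique hS hk hex.choose_spec h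
  rw [hp]

/-- the truth of the hard instances -/
theorem hard_sat {B₀ E : Oracle} {L k t c ν τ j : ℕ} {S : ℕ → List ℕ} (hS : Sel k ν τ S)
    (hk : 1 ≤ k) (hL : L < ν) (hj : j < 2 ^ c) {rest : List ℕ} (ht : rest.length = t)
    (hrest : ∀ a ∈ rest, a ≤ ν) (f : List Bool → Bool) :
    (hard k t c ν j).Sat (join (orc' B₀ L t c ν τ S rest f) E) ↔
      (τ :: rest).foldr up f (bitsOf c j) = false := by
  set A := join (orc' B₀ L t c ν τ S rest f) E with hA
  have hN : (hard k t c ν j).labels.length = 2 ^ ν := by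
    show ((List.range (2 ^ ν)).map (lab c ν j)).length = _
    rw [List.length_map, List.length_range]
  have hN1 : 1 ≤ 2 ^ ν := Nat.one_le_two_pow
  set P : List ℕ → Prop := fun v =>
    (hard k t c ν j).atoms.map ((hard k t c ν j).atom A v) ∈ (hard k t c ν j).acc with hP
  have hP1 : ∀ v, Tup (2 ^ ν) (k + t) v → (P v ↔ A (v.flatMap (lab c ν j)) = true) := by
    intro v hv
    have e : (hard k t c ν j).atom A v (0, List.range (k + t)) = A (v.flatMap (lab c ν j)) := by
      show A ((List.range (k + t)).flatMap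
        (fun i => (hard k t c ν j).labels.getD (v.getD i 0) [])) = _
      rw [query hv]
    show [(hard k t c ν j).atom A v (0, List.range (k + t))] ∈ [[true]] ↔ _
    rw [e]
    simp
  have hsat : (hard k t c ν j).Sat A ↔ ∃ w : List ℕ, w.length = k ∧ (∀ a ∈ w, a < 2 ^ ν) ∧
      Holds (2 ^ ν) P false (List.replicate t 1) w := by
    unfold Inst.Sat
    rw [hN]
    show (∃ w : List ℕ, w.length = k ∧ (∀ a ∈ w, a < 2 ^ ν) ∧
      Holds (2 ^ ν) P false (List.replicate t 1) ([] ++ w)) ↔ _
    simp only [List.nil_append]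
  have hup : ∀ i < 2 ^ τ, (Holds (2 ^ ν) P false (List.replicate t 1) (S i) ↔
      rest.foldr up f (bitsOf c j ++ bitsOf τ i) = true) := by
    intro i hi
    have h1 := holds_up (N := 2 ^ ν) (P := P) (f := f) rest false (bitsOf c j ++ bitsOf τ i) (S i)
      (fun a ha => Nat.pow_le_pow_right (by norm_num) (hrest a ha)) (by
      intro y hy1 hy2
      have hy : Tup (2 ^ ν) t y := ⟨hy1.trans ht, hy2⟩
      rw [hP1 _ ((hS.tup i hi).append hy)]
      have hleaf : IsLeaf t c ν τ S ((S i ++ y).flatMap (lab c ν j)) (j, i, y) :=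
        ⟨hj, hi, hy, rfl⟩
      rw [hA, join_leaf hS hk hL hleaf, ht]
      dsimp only
      rw [beq_iff_eq])
    rw [ht] at h1
    exact h1
  have hoff : ∀ w, Tup (2 ^ ν) k w → (∀ i < 2 ^ τ, S i ≠ w) →
      ¬ Holds (2 ^ ν) P false (List.replicate t 1) w := by
    intro w hw hne
    refine not_holds hN1 _ _ _ fun y hy1 hy2 => ?_
    have hy : Tup (2 ^ ν) t y := ⟨by rw [hy1, List.sum_replicate]; simp, hy2⟩
    rw [hP1 _ (hw.append hy), hA, join_base]
    · have hlen : ((w ++ y).flatMap (lab c ν j)).length = (k + t) * (1 + c + ν) := by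
        rw [length_flat, (hw.append hy).1]
      rcases hq : (w ++ y).flatMap (lab c ν j) with _ | ⟨b, u⟩
      · exact Bool.false_ne_true
      · cases b with
        | true =>
          exfalso
          rcases hwy : w ++ y with _ | ⟨a, w'⟩
          · have := (hw.append hy).1
            rw [hwy, List.length_nil] at this
            omega
          · rw [hwy, List.flatMap_cons] at hq
            unfold lab at hq
            rw [List.cons_append] at hq
            exact Bool.false_ne_true (List.cons.inj hq).1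
        | false =>
          show ¬ base B₀ L u = true
          unfold base
          have hu : ¬ u.length ≤ L := by
            rw [hq, List.length_cons] at hlen
            have h6 : 1 + c + ν ≤ (k + t) * (1 + c + ν) := Nat.le_mul_of_pos_left _ (by omega)
            omega
          rw [if_neg hu]
          exact Bool.false_ne_true
    · rintro ⟨⟨j', i, y'⟩, h1, h2, h3, h4⟩
      obtain ⟨_, h5⟩ := flat_inj (c := c) (ν := ν) (r := k + t) (by omega) (hw.append hy)
        ((hS.tup _ h2).append h3) hj h1 h4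
      exact hne i h2 (List.append_inj h5 (by rw [(hS.tup _ h2).1, hw.1])).1.symm
  rw [hsat, List.foldr_cons, ← Bool.not_eq_true]
  have e1 : up τ (rest.foldr up f) (bitsOf c j) = true ↔
      ∀ i < 2 ^ τ, rest.foldr up f (bitsOf c j ++ bitsOf τ i) = false := by
    unfold up
    rw [decide_eq_true_iff]
  rw [e1]
  push Not
  constructor
  · rintro ⟨w, h1, h2, h3⟩
    by_contra hcon
    push Not at hcon
    refine hoff w ⟨h1, h2⟩ ?_ h3
    rintro i hi rfl
    have h4 := (hup i hi).1 h3
    have h5 := hcon i hi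
    rw [h4] at h5
    exact Bool.true_eq_false.mp h5
  · rintro ⟨i, hi, h1⟩
    refine ⟨S i, (hS.tup i hi).1, (hS.tup i hi).2, (hup i hi).2 ?_⟩
    simpa using h1

end Pool.Agent.Y626.WG
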