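import Pool.Agent.Y626.WG.Defs
import Pool.Agent.H591R3.PHG.LangTr

/-! Alternating quantifiers over numbers, and trees of NOR gates. -/

set_option autoImplicit false

namespace Pool.Agent.Y626.WG

open Pool.Agent.NPC Pool.Agent.H620R2.Gauge Pool.Agent.TH678.GC Pool.Agent.H591R3.PHG

theorem holds_congr {N : ℕ} {P P' : List ℕ → Prop} (h : ∀ v, P v ↔ P' v) :
    ∀ (bs : List ℕ) (b : Bool) (v : List ℕ), Holds N P b bs v ↔ Holds N P' b bs v
  | [], b, v => by cases b <;> exact h v
  | s :: bs, true, v => by
    unfold Holds
    exact exists_congr fun w => and_congr_right fun _ => and_congr_right fun _ =>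
      holds_congr h bs false (v ++ w)
  | s :: bs, false, v => by
    unfold Holds
    exact forall_congr' fun w => imp_congr_right fun _ => imp_congr_right fun _ =>
      holds_congr h bs true (v ++ w)

theorem not_holds {N : ℕ} {P : List ℕ → Prop} (hN : 1 ≤ N) :
    ∀ (bs : List ℕ) (b : Bool) (v : List ℕ),
      (∀ y : List ℕ, y.length = bs.sum → (∀ a ∈ y, a < N) → ¬ P (v ++ y)) → ¬ Holds N P b bs v
  | [], b, v, h => by
    have := h [] rfl (by simp)
    rw [List.append_nil] at this
    cases b <;> exact this
  | s :: bs, true, v, h => by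
    unfold Holds
    rintro ⟨w, hw1, hw2, hw⟩
    refine not_holds hN bs false (v ++ w) (fun y hy1 hy2 => ?_) hw
    rw [List.append_assoc]
    refine h _ (by rw [List.length_append, List.sum_cons, hw1, hy1]) fun a ha => ?_
    rcases List.mem_append.1 ha with ha | ha
    · exact hw2 a ha
    · exact hy2 a ha
  | s :: bs, false, v, h => by
    unfold Holds
    intro hw
    have h1 := hw (List.replicate s 0) (List.length_replicate) (fun a ha => by
      rw [List.eq_of_mem_replicate ha]; omega)
    refine not_holds hN bs true (v ++ List.replicate s 0) (fun y hy1 hy2 => ?_) h1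
    rw [List.append_assoc]
    refine h _ (by rw [List.length_append, List.sum_cons, List.length_replicate, hy1])
      fun a ha => ?_
    rcases List.mem_append.1 ha with ha | ha
    · rw [List.eq_of_mem_replicate ha]; omega
    · exact hy2 a ha

theorem bitsOf_mod : ∀ (a y : ℕ), bitsOf a (y % 2 ^ a) = bitsOf a y
  | 0, _ => rfl
  | a + 1, y => by
    show ((y % 2 ^ (a + 1)) % 2 == 1) :: bitsOf a (y % 2 ^ (a + 1) / 2) =
      (y % 2 == 1) :: bitsOf a (y / 2)
    have h1 : (y % 2 ^ (a + 1)) % 2 = y % 2 :=
      Nat.mod_mod_of_dvd y (Dvd.intro_left (2 ^ a) rfl)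
    have h2 : y % 2 ^ (a + 1) / 2 = (y / 2) % 2 ^ a := by
      rw [pow_succ, Nat.mul_comm, Nat.mod_mul_right_div_self]
    rw [h1, h2, bitsOf_mod a (y / 2)]

/-- the address of a path, the numbers of digits being given -/
def path : List ℕ → List ℕ → List Bool
  | a :: as, y :: ys => bitsOf a y ++ path as ys
  | _, _ => []

/-- the bit, changed `n` times -/
def fl : ℕ → Bool → Bool
  | 0, b => b
  | n + 1, b => fl n (!b)

theorem up_iff {N a : ℕ} (h : 2 ^ a ≤ N) (v : List Bool → Bool) (q : List Bool) :
    up a v q = true ↔ ∀ y < N, v (q ++ bitsOf a y) = false := by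
  unfold up
  rw [decide_eq_true_iff]
  constructor
  · intro h1 y _
    rw [← bitsOf_mod]
    exact h1 _ (Nat.mod_lt _ (by positivity))
  · intro h1 i hi
    exact h1 i (by omega)

/-- quantifiers over single numbers and the tree of NOR gates -/
theorem holds_up {N : ℕ} {P : List ℕ → Prop} {f : List Bool → Bool} :
    ∀ (rest : List ℕ) (b : Bool) (p : List Bool) (v : List ℕ), (∀ a ∈ rest, 2 ^ a ≤ N) →
      (∀ y : List ℕ, y.length = rest.length → (∀ a ∈ y, a < N) →
        (P (v ++ y) ↔ f (p ++ path rest y) = !(fl rest.length b))) →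
      (Holds N P b (List.replicate rest.length 1) v ↔ rest.foldr up f p = !b)
  | [], b, p, v, _, hP => by
    have h1 := hP [] rfl (by simp)
    rw [List.append_nil] at h1
    show Holds N P b [] v ↔ f p = !b
    have h2 : Holds N P b [] v ↔ P v := by cases b <;> exact Iff.rfl
    rw [h2, h1]
    simp only [path, List.append_nil, List.length_nil, fl]
  | a :: rest, b, p, v, hN, hP => by
    have ha : 2 ^ a ≤ N := hN a (List.mem_cons_self ..)
    have ih : ∀ x < N, (Holds N P (!b) (List.replicate rest.length 1) (v ++ [x]) ↔
        rest.foldr up f (p ++ bitsOf a x) = !(!b)) := by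
      intro x hx
      refine holds_up rest (!b) (p ++ bitsOf a x) (v ++ [x])
        (fun a' ha' => hN a' (List.mem_cons_of_mem _ ha')) ?_
      intro y hy hy2
      have h1 := hP (x :: y) (by rw [List.length_cons, List.length_cons, hy]) (by
        intro c hc
        rcases List.mem_cons.1 hc with rfl | hc
        · exact hx
        · exact hy2 c hc)
      rw [List.append_assoc, List.singleton_append, List.append_assoc]
      exact h1
    have e1 : ∀ Q : List ℕ → Prop, (∃ w : List ℕ, w.length = 1 ∧ (∀ c ∈ w, c < N) ∧ Q w) ↔
        ∃ x < N, Q [x] := by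
      intro Q
      constructor
      · rintro ⟨w, h1, h2, h3⟩
        obtain ⟨x, rfl⟩ := List.length_eq_one_iff.1 h1
        exact ⟨x, h2 x (List.mem_singleton_self x), h3⟩
      · rintro ⟨x, h1, h2⟩
        exact ⟨[x], rfl, by simpa using h1, h2⟩
    have e2 : ∀ Q : List ℕ → Prop, (∀ w : List ℕ, w.length = 1 → (∀ c ∈ w, c < N) → Q w) ↔
        ∀ x < N, Q [x] := by
      intro Q
      constructor
      · intro h x hx
        exact h [x] rfl (by simpa using hx)
      · intro h w h1 h2
        obtain ⟨x, rfl⟩ := List.length_eq_one_iff.1 h1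
        exact h x (h2 x (List.mem_singleton_self x))
    rw [List.length_cons, List.replicate_succ, List.foldr_cons]
    cases b with
    | true =>
      show (∃ w : List ℕ, w.length = 1 ∧ (∀ c ∈ w, c < N) ∧
        Holds N P false (List.replicate rest.length 1) (v ++ w)) ↔ _
      rw [e1]
      have h3 : (∃ x < N, Holds N P false (List.replicate rest.length 1) (v ++ [x])) ↔
          ∃ x < N, rest.foldr up f (p ++ bitsOf a x) = true := by
        refine exists_congr fun x => and_congr_right fun hx => ?_
        exact ih x hx
      rw [h3, Bool.not_true, ← Bool.not_eq_true, up_iff ha]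
      push Not
      refine exists_congr fun x => and_congr_right fun _ => ?_
      rw [ne_eq, Bool.not_eq_false]
    | false =>
      show (∀ w : List ℕ, w.length = 1 → (∀ c ∈ w, c < N) →
        Holds N P true (List.replicate rest.length 1) (v ++ w)) ↔ _
      rw [e2]
      have h3 : (∀ x < N, Holds N P true (List.replicate rest.length 1) (v ++ [x])) ↔
          ∀ x < N, rest.foldr up f (p ++ bitsOf a x) = false := by
        refine forall_congr' fun x => imp_congr_right fun hx => ?_
        exact ih x hx
      rw [h3, Bool.not_false, up_iff ha]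

end Pool.Agent.Y626.WG
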