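import Pool.Agent.Y626.WG.Leaf
import Pool.Agent.TH678.GC.Core
import Pool.Agent.TH678.RS.Diag

/-! Sizes and numbers. -/

set_option autoImplicit false

namespace Pool.Agent.Y626.WG

open Pool.Agent.NPC Pool.Agent.H622R2 Pool.Agent.H620R2.Gauge Pool.Agent.TH678.GC
  Pool.Agent.H591R3.PHG Pool.Agent.TH678.RS

theorem exists_sel {k t c ν τ : ℕ} (hk : 1 ≤ k) (Q : Finset (List Bool))
    (h : Q.card + 2 ^ τ ≤ 2 ^ (ν * k)) :
    ∃ S : ℕ → List ℕ, Sel k ν τ S ∧ ∀ q ∈ Q, ¬ ∃ p, IsLeaf t c ν τ S q p := by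
  classical
  have htup : ∀ w : Fin k → Fin (2 ^ ν), Tup (2 ^ ν) k (List.ofFn fun i => (w i : ℕ)) := by
    intro w
    refine ⟨List.length_ofFn, fun x hx => ?_⟩
    obtain ⟨i, rfl⟩ := (List.mem_ofFn' _ _).1 hx
    exact (w i).2
  have hinj : ∀ w w' : Fin k → Fin (2 ^ ν), (List.ofFn fun i => (w i : ℕ)) =
      (List.ofFn fun i => (w' i : ℕ)) → w = w' := by
    intro w w' h1
    have h2 := List.ofFn_injective h1
    funext i
    exact Fin.ext (congrFun h2 i)
  set Z : Finset (Fin k → Fin (2 ^ ν)) := Finset.univ.filter fun w =>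
    ∃ q ∈ Q, ∃ j < 2 ^ c, ∃ y, Tup (2 ^ ν) t y ∧
      q = ((List.ofFn fun i => (w i : ℕ)) ++ y).flatMap (lab c ν j) with hZ
  have h1 : Z.card ≤ Q.card := by
    have h0 : ∀ w ∈ Z, ∃ q ∈ Q, ∃ j < 2 ^ c, ∃ y, Tup (2 ^ ν) t y ∧
      q = ((List.ofFn fun i => (w i : ℕ)) ++ y).flatMap (lab c ν j) := fun w hw =>
      (Finset.mem_filter.1 hw).2
    choose! g hg using h0
    refine Finset.card_le_card_of_injOn g (fun w hw => (hg w hw).1) ?_
    intro w hw w' hw' he
    obtain ⟨_, j, hj, y, hy, e⟩ := hg w hw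
    obtain ⟨_, j', hj', y', hy', e'⟩ := hg w' hw'
    have h2 := flat_inj (c := c) (ν := ν) (r := k + t) (by omega) ((htup w).append hy)
      ((htup w').append hy') hj hj' (e.symm.trans (he.trans e'))
    exact hinj _ _ (List.append_inj h2.2 (by simp)).1
  have h2 : 2 ^ τ ≤ (Zᶜ).card := by
    rw [Finset.card_compl, Fintype.card_fun, Fintype.card_fin, Fintype.card_fin, ← pow_mul]
    omega
  obtain ⟨W, hW1, hW2⟩ := Finset.exists_subset_card_eq h2
  have e := Finset.equivFinOfCardEq hW2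
  refine ⟨fun i => if h : i < 2 ^ τ then List.ofFn fun a => ((e.symm ⟨i, h⟩).1 a : ℕ) else [],
    ⟨?_, ?_⟩, ?_⟩
  · intro i hi
    rw [dif_pos hi]
    exact htup _
  · intro i hi i' hi' h3
    rw [dif_pos hi, dif_pos hi'] at h3
    have h4 := e.symm.injective (Subtype.ext (hinj _ _ h3))
    simpa using h4
  · rintro q hq ⟨⟨j, i, y⟩, h3, h4, h5, h6⟩
    dsimp only at h3 h4 h5 h6
    rw [dif_pos h4] at h6
    have h7 := hW1 (e.symm ⟨i, h4⟩).2
    rw [Finset.mem_compl] at h7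
    exact h7 (Finset.mem_filter.2 ⟨Finset.mem_univ _, q, hq, j, h3, y, h5, h6⟩)

/-- the constant part of the size -/
def cst (k t : ℕ) : ℕ :=
  sz (k :: List.replicate t 1) + sz ([(0, List.range (k + t))] : List (ℕ × List ℕ)) + 16

theorem sz_hard (k t c ν j : ℕ) :
    sz (hard k t c ν j) ≤ 2 ^ ν * (4 * (1 + c + ν) + 2) + cst k t := by
  have e : sz (hard k t c ν j) = sz ((List.range (2 ^ ν)).map (lab c ν j)) +
      (sz ([] : List (List (ℕ × ℕ))) + (sz (k :: List.replicate t 1) +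
      (sz ([(0, List.range (k + t))] : List (ℕ × List ℕ)) + sz [[true]] + 1) + 1) + 1) + 1 := by
    have : sz (hard k t c ν j) = sz ((List.range (2 ^ ν)).map (lab c ν j),
      ([] : List (List (ℕ × ℕ))), k :: List.replicate t 1,
      ([(0, List.range (k + t))] : List (ℕ × List ℕ)), [[true]]) := rfl
    rw [this, sz_pair, sz_pair, sz_pair, sz_pair]
  have h1 := sz_le_length_mul ((List.range (2 ^ ν)).map (lab c ν j)) (4 * (1 + c + ν) + 1) (by
    intro a ha
    obtain ⟨i, _, rfl⟩ := List.mem_map.1 ha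
    have := sz_listBool_le (lab c ν j i)
    rw [length_lab] at this
    exact this)
  rw [List.length_map, List.length_range] at h1
  have h2 : sz [[true]] = 7 := by simp
  have h3 : sz ([] : List (List (ℕ × ℕ))) = 1 := rfl
  rw [e, h2, h3]
  unfold cst
  have e2 : 4 * (1 + c + ν) + 1 + 1 = 4 * (1 + c + ν) + 2 := rfl
  rw [e2] at h1
  omega

/-- the numbers -/
theorem numbers (t k s G L d₂ : ℕ) : ∃ u : ℕ, 1 ≤ u ∧ L < 512 * u ∧ G ≤ 2 ^ (2 * u) ∧
    2 * s + 1 + (2 ^ (512 * u) * (4 * (1 + (u + 11) + 512 * u) + 2) + cst k t) + 2 ≤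
      2 ^ (1024 * u) ∧
    (t : ℝ) * (2 ^ (2 ^ (u + 11) + t * (2 * (1024 * u * d₂ * G) + 1) + 2) *
      (1 / 2) ^ (2 ^ (2 * u) + 1)) + 3 * (1 / 2) ^ (2 ^ u) < 1 := by
  set E : ℕ := 2052 + 53 + 2 * s + cst k t + t * (2048 * d₂ * G + 1) + 4 + t + G with hE
  obtain ⟨u, h1, h2⟩ := ((ev_poly E 1).and (Filter.eventually_ge_atTop (L + 12))).exists
  rw [pow_one] at h1
  have hEu : E ≤ E * (u + 1) := Nat.le_mul_of_pos_right _ (by omega)
  have h22 : 2 ^ u ≤ 2 ^ (2 * u) := Nat.pow_le_pow_right (by norm_num) (by omega)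
  refine ⟨u, by omega, by omega, by omega, ?_, ?_⟩
  · have h3 : 2 ^ u ≤ 2 ^ (512 * u) := Nat.pow_le_pow_right (by norm_num) (by omega)
    have h4 : (2052 + 53 + 2 * s + cst k t) * (u + 1) ≤ E * (u + 1) :=
      Nat.mul_le_mul_right _ (by omega)
    have h5 : 2 * s + 1 + (4 * (1 + (u + 11) + 512 * u) + 2) + cst k t + 2 ≤ 2 ^ (512 * u) := by
      nlinarith
    have h6 : 1 ≤ 2 ^ (512 * u) := Nat.one_le_two_pow
    have e : 2 ^ (1024 * u) = 2 ^ (512 * u) * 2 ^ (512 * u) := by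
      rw [← pow_add]; congr 1; ring
    rw [e]
    calc 2 * s + 1 + (2 ^ (512 * u) * (4 * (1 + (u + 11) + 512 * u) + 2) + cst k t) + 2
        ≤ 2 ^ (512 * u) * (2 * s + 1 + (4 * (1 + (u + 11) + 512 * u) + 2) + cst k t + 2) := by
          have h7 : 2 * s + 1 + cst k t + 2 ≤ 2 ^ (512 * u) * (2 * s + 1 + cst k t + 2) :=
            Nat.le_mul_of_pos_left _ (by positivity)
          have e2 : 2 ^ (512 * u) * (2 * s + 1 + (4 * (1 + (u + 11) + 512 * u) + 2) +
            cst k t + 2) = 2 ^ (512 * u) * (2 * s + 1 + cst k t + 2) +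
              2 ^ (512 * u) * (4 * (1 + (u + 11) + 512 * u) + 2) := by ring
          omega
      _ ≤ _ := Nat.mul_le_mul_left _ h5
  · set a : ℕ := 2 ^ (u + 11) + t * (2 * (1024 * u * d₂ * G) + 1) + 2 with ha
    set b : ℕ := 2 ^ (2 * u) with hb
    have h3 : a + t + 2 ≤ b := by
      have h4 : 2 ^ (u + 11) + 2 ^ (2 * u - 1) ≤ b := by
        have h5 : 2 ^ (u + 11) ≤ 2 ^ (2 * u - 1) :=
          Nat.pow_le_pow_right (by norm_num) (by omega)
        have h6 : b = 2 ^ (2 * u - 1) + 2 ^ (2 * u - 1) := by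
          rw [hb]
          have : 2 * u = 2 * u - 1 + 1 := by omega
          conv_lhs => rw [this]
          rw [pow_succ]
          ring
        omega
      have h7 : 2 ^ u ≤ 2 ^ (2 * u - 1) := Nat.pow_le_pow_right (by norm_num) (by omega)
      have h8 : (t * (2048 * d₂ * G + 1) + 4 + t) * (u + 1) ≤ E * (u + 1) :=
        Nat.mul_le_mul_right _ (by omega)
      have h9 : t * (2 * (1024 * u * d₂ * G) + 1) + 2 + t + 2 ≤
          (t * (2048 * d₂ * G + 1) + 4 + t) * (u + 1) := by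
        have e1 : t * (2 * (1024 * u * d₂ * G) + 1) = t * (2048 * d₂ * G) * u + t := by ring
        have e2 : (t * (2048 * d₂ * G + 1) + 4 + t) * (u + 1) =
          t * (2048 * d₂ * G) * u + t * (2048 * d₂ * G) + t * u + t + 4 * u + 4 + t * u + t := by
          ring
        rw [e1, e2]
        have : 0 ≤ t * u := Nat.zero_le _
        omega
      omega
    have h4 : (t : ℝ) ≤ 2 ^ t := by exact_mod_cast (Nat.lt_two_pow_self (n := t)).le
    have h5 : (t : ℝ) * (2 ^ a * (1 / 2) ^ (b + 1)) ≤ 1 / 8 := by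
      have h6 : (2 : ℝ) ^ (a + t + 2) ≤ 2 ^ b := pow_le_pow_right₀ (by norm_num) h3
      have h7 : (0 : ℝ) < 2 ^ b := by positivity
      have h8 : (1 / 2 : ℝ) ^ (b + 1) = 1 / (2 ^ b * 2) := by
        rw [one_div, inv_pow, pow_succ, one_div]
      rw [h8]
      have h9 : (t : ℝ) * 2 ^ a ≤ 2 ^ b / 4 := by
        have h10 : (t : ℝ) * 2 ^ a ≤ 2 ^ t * 2 ^ a := by gcongr
        have h11 : (2 : ℝ) ^ (a + t + 2) = 2 ^ t * 2 ^ a * 4 := by
          rw [pow_add, pow_add]; ring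
        linarith
      have h10 : (t : ℝ) * (2 ^ a * (1 / (2 ^ b * 2))) = t * 2 ^ a / (2 ^ b * 2) := by ring
      rw [h10, div_le_iff₀ (by positivity)]
      linarith
    have h6 : 3 * (1 / 2 : ℝ) ^ (2 ^ u) ≤ 3 / 4 := by
      have h7 : (1 / 2 : ℝ) ^ (2 ^ u) ≤ (1 / 2) ^ 2 := by
        refine pow_le_pow_of_le_one (by norm_num) (by norm_num) ?_
        calc 2 = 2 ^ 1 := by norm_num
          _ ≤ 2 ^ u := Nat.pow_le_pow_right (by norm_num) (by omega)
      norm_num at h7 ⊢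
      linarith
    linarith

end Pool.Agent.Y626.WG
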