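import Pool.Agent.Y626.WG.Hold

/-! Alternating quantifiers over numbers as alternating quantifiers over strings. -/

set_option autoImplicit false

namespace Pool.Agent.Y626.WG

open Pool.Agent.NPC Pool.Agent.H620R2.Gauge Pool.Agent.TH678.GC Pool.Agent.H591R3.PHG

/-- the string after the choice of the strings `ws` -/
def pk (ws : List (List Bool)) (y0 : List Bool) : List Bool :=
  ws.foldl (fun acc w => pairBits w acc) y0

/-- the choices, from the string -/
def ass : ℕ → List Bool → List (List Bool) × List Bool
  | 0, y => ([], y)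
  | t + 1, y => ((ass t (unpair y).2).1 ++ [(unpair y).1], (ass t (unpair y).2).2)

theorem pk_append (ws : List (List Bool)) (w y0 : List Bool) :
    pk (ws ++ [w]) y0 = pairBits w (pk ws y0) := by
  unfold pk
  rw [List.foldl_append]
  rfl

theorem ass_pk (y0 : List Bool) : ∀ ws : List (List Bool), ass ws.length (pk ws y0) = (ws, y0) := by
  intro ws
  induction ws using List.reverseRecOn with
  | nil => rfl
  | append_singleton ws w ih =>
    rw [pk_append, List.length_append, List.length_singleton]
    show ((ass ws.length (unpair (pairBits w (pk ws y0))).2).1 ++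
      [(unpair (pairBits w (pk ws y0))).1],
      (ass ws.length (unpair (pairBits w (pk ws y0))).2).2) = _
    rw [unpair_pairBits]
    dsimp only
    rw [ih]

/-- the tuples -/
def Tup (N s : ℕ) (a : List ℕ) : Prop := a.length = s ∧ ∀ x ∈ a, x < N

/-- there is a map from the short strings onto the tuples -/
theorem exists_dec {N m s : ℕ} (hN : 1 ≤ N) (hm : N ^ s ≤ 2 ^ m) :
    ∃ d : List Bool → List ℕ, (∀ w, Tup N s (d w)) ∧
      ∀ a, Tup N s a → ∃ w : List Bool, w.length ≤ m ∧ d w = a := by
  classical
  have hc : ∀ a : List ℕ, Tup N s a → ∃ φ : Fin s → Fin N, a = List.ofFn fun i => (φ i : ℕ) := by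
    rintro a ⟨h1, h2⟩
    subst h1
    refine ⟨fun i => ⟨a.get i, h2 _ (List.get_mem a i)⟩, ?_⟩
    simp
  have hφ : ∀ φ : Fin s → Fin N, Tup N s (List.ofFn fun i => (φ i : ℕ)) := by
    intro φ
    refine ⟨List.length_ofFn, fun x hx => ?_⟩
    obtain ⟨i, rfl⟩ := (List.mem_ofFn' _ _).1 hx
    exact (φ i).2
  set e := finFunctionFinEquiv (m := N) (n := s) with he
  have hlt : ∀ φ, (e φ : ℕ) < 2 ^ m := fun φ => lt_of_lt_of_le (e φ).2 hm
  set z : Fin s → Fin N := fun _ => ⟨0, by omega⟩ with hz
  refine ⟨fun w => if h : ∃ φ, w = bitsOf m (e φ) then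
    List.ofFn fun i => (h.choose i : ℕ) else List.ofFn fun i => (z i : ℕ), ?_, ?_⟩
  · intro w
    dsimp only
    split_ifs with h
    · exact hφ _
    · exact hφ _
  · intro a ha
    obtain ⟨φ, rfl⟩ := hc a ha
    refine ⟨bitsOf m (e φ), by rw [length_bitsOf], ?_⟩
    have h : ∃ φ', bitsOf m (e φ) = bitsOf m (e φ') := ⟨φ, rfl⟩
    dsimp only
    rw [dif_pos h]
    have h2 : φ = h.choose := by
      have h3 := bitsOf_inj (hlt _) (hlt _) h.choose_spec
      exact e.injective (Fin.ext h3)
    rw [← h2]

/-- the values of the variables, from the strings -/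
def dcd (d : ℕ → List Bool → List ℕ) : List ℕ → List (List Bool) → List ℕ
  | s :: bs, w :: ws => d s w ++ dcd d bs ws
  | _, _ => []

open Classical in
theorem qf_holds {I : Type*} {m N t : ℕ} {P : List ℕ → Prop} {d : ℕ → List Bool → List ℕ}
    (Leaf : List (List Bool) → List Bool → (I → Bool) → Bool) (y0 : List Bool) (z : I → Bool) :
    ∀ (r : ℕ) (bs : List ℕ) (b : Bool) (ws : List (List Bool)) (v : List ℕ),
      bs.length ≤ r → ws.length + r = t →
      (∀ s ∈ bs, (∀ w, Tup N s (d s w)) ∧ ∀ a, Tup N s a → ∃ w : List Bool, w.length ≤ m ∧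
        d s w = a) →
      (∀ ws' : List (List Bool), ws'.length = r →
        (Leaf (ws ++ ws') y0 z = true ↔ P (v ++ dcd d bs ws'))) →
      (QF m (fun y => Leaf (ass t y).1 (ass t y).2) r b (pk ws y0) z = true ↔
        Holds N P b bs v) := by
  intro r
  induction r with
  | zero =>
    intro bs b ws v h1 h2 _ h4
    have hbs : bs = [] := List.eq_nil_of_length_eq_zero (by omega)
    subst hbs
    have e1 : QF m (fun y => Leaf (ass t y).1 (ass t y).2) 0 b (pk ws y0) z =
        Leaf ws y0 z := by
      have e2 : QF m (fun y => Leaf (ass t y).1 (ass t y).2) 0 b (pk ws y0) =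
          Leaf (ass t (pk ws y0)).1 (ass t (pk ws y0)).2 := by cases b <;> rfl
      rw [e2]
      have h5 : ws.length = t := by omega
      rw [← h5, ass_pk]
    have h6 := h4 [] rfl
    rw [List.append_nil] at h6
    rw [e1, h6]
    show P (v ++ []) ↔ _
    rw [List.append_nil]
    cases b <;> exact Iff.rfl
  | succ r ih =>
    intro bs b ws v h1 h2 h3 h4
    rcases bs with _ | ⟨s, bs⟩
    · have h5 : ∀ w : List Bool,
          (QF m (fun y => Leaf (ass t y).1 (ass t y).2) r (!b) (pk (ws ++ [w]) y0) z = true ↔
            P v) := by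
        intro w
        have h6 := ih [] (!b) (ws ++ [w]) v (by simp) (by
          rw [List.length_append, List.length_singleton]; omega) (by simp) (by
          intro ws' hws'
          have h7 := h4 (w :: ws') (by rw [List.length_cons, hws'])
          rw [List.append_assoc, List.singleton_append, h7]
          simp [dcd])
        rw [h6]
        cases b <;> exact Iff.rfl
      cases b with
      | true =>
        show decide (∃ w : List Bool, w.length ≤ m ∧
          QF m (fun y => Leaf (ass t y).1 (ass t y).2) r false (pairBits w (pk ws y0)) z = true)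
            = true ↔ P v
        rw [decide_eq_true_iff]
        simp only [← pk_append]
        constructor
        · rintro ⟨w, _, h6⟩
          exact (h5 w).1 h6
        · intro h6
          exact ⟨[], by simp, (h5 []).2 h6⟩
      | false =>
        show decide (∀ w : List Bool, w.length ≤ m →
          QF m (fun y => Leaf (ass t y).1 (ass t y).2) r true (pairBits w (pk ws y0)) z = true)
            = true ↔ P v
        rw [decide_eq_true_iff]
        simp only [← pk_append]
        constructor
        · intro h6
          exact (h5 []).1 (h6 [] (by simp))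
        · intro h6 w _
          exact (h5 w).2 h6
    · have hs := h3 s (List.mem_cons_self ..)
      have h5 : ∀ w : List Bool,
          (QF m (fun y => Leaf (ass t y).1 (ass t y).2) r (!b) (pk (ws ++ [w]) y0) z = true ↔
            Holds N P (!b) bs (v ++ d s w)) := by
        intro w
        refine ih bs (!b) (ws ++ [w]) (v ++ d s w) (by simpa using h1) (by
          rw [List.length_append, List.length_singleton]; omega)
          (fun s' hs' => h3 s' (List.mem_cons_of_mem _ hs')) ?_
        intro ws' hws'
        have h7 := h4 (w :: ws') (by rw [List.length_cons, hws'])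
        rw [List.append_assoc, List.singleton_append, h7, List.append_assoc]
        rfl
      cases b with
      | true =>
        show decide (∃ w : List Bool, w.length ≤ m ∧
          QF m (fun y => Leaf (ass t y).1 (ass t y).2) r false (pairBits w (pk ws y0)) z = true)
            = true ↔ ∃ w : List ℕ, w.length = s ∧ (∀ a ∈ w, a < N) ∧ Holds N P false bs (v ++ w)
        rw [decide_eq_true_iff]
        simp only [← pk_append]
        constructor
        · rintro ⟨w, _, h6⟩
          exact ⟨d s w, (hs.1 w).1, (hs.1 w).2, (h5 w).1 h6⟩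
        · rintro ⟨a, h6, h7, h8⟩
          obtain ⟨w, hw, rfl⟩ := hs.2 a ⟨h6, h7⟩
          exact ⟨w, hw, (h5 w).2 h8⟩
      | false =>
        show decide (∀ w : List Bool, w.length ≤ m →
          QF m (fun y => Leaf (ass t y).1 (ass t y).2) r true (pairBits w (pk ws y0)) z = true)
            = true ↔ ∀ w : List ℕ, w.length = s → (∀ a ∈ w, a < N) → Holds N P true bs (v ++ w)
        rw [decide_eq_true_iff]
        simp only [← pk_append]
        constructor
        · intro h6 a h7 h8
          obtain ⟨w, hw, rfl⟩ := hs.2 a ⟨h7, h8⟩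
          exact (h5 w).1 (h6 w hw)
        · intro h6 w _
          exact (h5 w).2 (h6 (d s w) (hs.1 w).1 (hs.1 w).2)

/-- constant or a function of one bit -/
def Sing {J : Type} (f : (J → Bool) → Bool) : Prop :=
  (∃ b, ∀ z, f z = b) ∨ ∃ (j : J) (u : Bool → Bool), ∀ z, f z = u (z j)

theorem Sing.update {J : Type} [DecidableEq J] {f : (J → Bool) → Bool} (h : Sing f) (j : J)
    (b : Bool) : Sing (fun z => f (Function.update z j b)) := by
  rcases h with ⟨c, hc⟩ | ⟨j', u, hu⟩
  · exact Or.inl ⟨c, fun z => hc _⟩
  · by_cases hj : j' = j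
    · subst hj
      exact Or.inl ⟨u b, fun z => by simp only [hu, Function.update_self]⟩
    · exact Or.inr ⟨j', u, fun z => by simp only [hu, Function.update_of_ne hj]⟩

theorem DTr_list {J : Type} [Fintype J] [DecidableEq J] :
    ∀ (l : List ((J → Bool) → Bool)) (_ : ∀ f ∈ l, Sing f) (Φ : List Bool → Bool),
      Pool.Agent.H676.DTr l.length (fun z => Φ (l.map fun f => f z)) := by
  suffices h : ∀ (n : ℕ) (l : List ((J → Bool) → Bool)), l.length = n → (∀ f ∈ l, Sing f) →
      ∀ Φ : List Bool → Bool, Pool.Agent.H676.DTr n (fun z => Φ (l.map fun f => f z)) from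
    fun l hl Φ => h l.length l rfl hl Φ
  intro n
  induction n with
  | zero =>
    intro l hl _ Φ
    have : l = [] := List.eq_nil_of_length_eq_zero hl
    subst this
    exact ⟨Φ [], fun z => rfl⟩
  | succ n ih =>
    intro l hl hs Φ
    rcases l with _ | ⟨f, l⟩
    · simp at hl
    · have hl' : l.length = n := by simpa using hl
      rcases hs f (List.mem_cons_self ..) with ⟨c, hc⟩ | ⟨j, u, hu⟩
      · have h1 := (ih l hl' (fun f' hf' => hs f' (List.mem_cons_of_mem _ hf'))
          (fun x => Φ (c :: x))).succ
        refine (congrArg (Pool.Agent.H676.DTr (n + 1)) (funext fun z => ?_)).mp h1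
        rw [List.map_cons, hc]
      · refine Or.inr ⟨j, fun b => ?_⟩
        have h1 := ih (l.map fun f' z => f' (Function.update z j b)) (by
          rw [List.length_map, hl']) (by
          intro f' hf'
          obtain ⟨f'', hf'', rfl⟩ := List.mem_map.1 hf'
          exact (hs f'' (List.mem_cons_of_mem _ hf'')).update j b) (fun x => Φ (u b :: x))
        refine (congrArg (Pool.Agent.H676.DTr n) (funext fun z => ?_)).mp h1
        dsimp only
        rw [List.map_cons, hu, Function.update_self, List.map_map]
        rfl

end Pool.Agent.Y626.WG
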